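import Mathlib

set_option autoImplicit false

/-!
# Project SQ: the Poisson law for almost primes just above squares, statements of the jobs
-/

namespace Pool.Agent.Y862.SQ

open Finset

/-- the primes up to `y` -/
def pr (y : ℕ) : Finset ℕ := (Icc 1 y).filter Nat.Prime

/-- the Legendre symbol of `-h` -/
def leg (h p : ℕ) : ℤ := jacobiSym (-(h : ℤ)) p

/-- number of the classes `r` modulo `p` with `p ∣ r ^ 2 + h` for some `h` in `H` -/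
def rH (H : Finset ℕ) (p : ℕ) : ℕ := ((range p).filter (fun r => ∃ h ∈ H, p ∣ r ^ 2 + h)).card

/-- the density of the `n` such that no `n ^ 2 + h`, `h` in `H`, has a prime factor up to `y` -/
noncomputable def VH (H : Finset ℕ) (y : ℕ) : ℝ := ∏ p ∈ pr y, (1 - (rH H p : ℝ) / p)

/-- the part above `w` -/
noncomputable def VT (H : Finset ℕ) (w y : ℕ) : ℝ :=
  ∏ p ∈ (pr y).filter (fun p => w < p), (1 - (rH H p : ℝ) / p)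

/-- the density of the integers without prime factor up to `y` -/
noncomputable def V1 (y : ℕ) : ℝ := ∏ p ∈ pr y, (1 - 1 / (p : ℝ))

/-- the part above `w` -/
noncomputable def V1t (w y : ℕ) : ℝ := ∏ p ∈ (pr y).filter (fun p => w < p), (1 - 1 / (p : ℝ))

/-- the singular factor of `n ^ 2 + h` above `w` -/
noncomputable def Ff (w y h : ℕ) : ℝ :=
  ∏ p ∈ (pr y).filter (fun p => w < p), (1 - (leg h p : ℝ) / ((p : ℝ) - 1))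

/-- the collision factor -/
noncomputable def Dd (K w t : ℕ) : ℝ := ∏ p ∈ t.primeFactors.filter (fun p => w < p), (1 + (K : ℝ) / p)

/-- pairs of elements -/
def prs (H : Finset ℕ) : Finset (ℕ × ℕ) := (H ×ˢ H).filter (fun x => x.1 < x.2)

/-- the number of the `h ≤ T` such that `n ^ 2 + h` has no prime factor up to `y` -/
def Ns (y T n : ℕ) : ℕ := ((Icc 1 T).filter (fun h => ∀ p ∈ pr y, ¬ p ∣ n ^ 2 + h)).card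

/-- first threshold -/
noncomputable def z1 (T : ℕ) : ℝ := Real.exp (Real.log T / (200 * Real.log (Real.log T)))

/-- second threshold -/
noncomputable def z2 (T : ℕ) : ℝ := Real.exp ((T : ℝ) ^ (1 / 100 : ℝ))

/-- Mertens -/
def S_MERT : Prop := ∃ C : ℝ, ∀ N : ℕ, 3 ≤ N →
  |∑ p ∈ pr N, (1 : ℝ) / p - Real.log (Real.log N)| ≤ C

/-- an elementary large sieve for the symbols of `-h` -/
def S_ELS : Prop := ∀ (T N : ℕ) (a : ℕ → ℝ), (∀ n, Even n → a n = 0) →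
  ∑ h ∈ Icc 1 T, (∑ n ∈ Icc 1 N, a n * (jacobiSym (-(h : ℤ)) n : ℝ)) ^ 2 ≤
    (N * √(T : ℝ) + 4 * (T : ℝ) ^ 3) * ∑ n ∈ Icc 1 N, a n ^ 2

/-- few exceptions in the middle range -/
def S_EXC : Prop := ∀ δ : ℝ, 0 < δ → ∃ T0 : ℕ, ∀ T : ℕ, T0 ≤ T → ∀ y : ℕ,
  (((Icc 1 T).filter (fun h => δ < |∑ p ∈ (pr y).filter (fun p : ℕ => z1 T < p ∧ (p : ℝ) ≤ z2 T),
    (leg h p : ℝ) / p|)).card : ℝ) ≤ (T : ℝ) ^ (9 / 10 : ℝ)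

/-- Brun's sieve for weights close to one -/
def S_BR2 : Prop := ∃ T0 : ℕ, ∀ T : ℕ, T0 ≤ T → ∀ P : Finset ℕ,
  (∀ p ∈ P, p.Prime ∧ (p : ℝ) ≤ z1 T) → ∀ b : ℕ → ℕ → ℝ, (∀ p ∈ P, ∀ n, b p (n + p) = b p n) →
  (∀ p ∈ P, ∀ n, |b p n| ≤ 4 / p) →
  |∑ h ∈ Icc 1 T, ∏ p ∈ P, (1 + b p h) - T * ∏ p ∈ P, (1 + (∑ n ∈ range p, b p n) / p)| ≤
    (T : ℝ) / Real.log T

/-- second moment for the small primes -/
def S_F1 : Prop := ∃ w0 : ℕ, ∀ w : ℕ, w0 ≤ w → ∃ T0 : ℕ, ∀ T : ℕ, T0 ≤ T → ∀ y : ℕ,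
  ∑ h ∈ Icc 1 T, ((∏ p ∈ (pr y).filter (fun p : ℕ => w < p ∧ (p : ℝ) ≤ z1 T),
    (1 - (leg h p : ℝ) / ((p : ℝ) - 1))) - 1) ^ 2 ≤ 4 * (T : ℝ) / w

/-- the large primes, from the theorem of Siegel and Walfisz -/
def S_SW3 : Prop := ∃ T0 : ℕ, ∀ T : ℕ, T0 ≤ T → ∀ h ∈ Icc 1 T, ∀ y : ℕ,
  |∑ p ∈ (pr y).filter (fun p : ℕ => z2 T < p), (leg h p : ℝ) / p| ≤ 1 / T

/-- the singular factors are close to one in mean square -/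
def S_FM : Prop := ∃ w0 : ℕ, ∀ w : ℕ, w0 ≤ w → ∃ T0 : ℕ, ∀ T : ℕ, T0 ≤ T → ∀ y : ℕ,
  ∑ h ∈ Icc 1 T, (Ff w y h - 1) ^ 2 ≤ (T : ℝ) / √(w : ℝ)

/-- collisions on average -/
def S_COLL : Prop := ∀ K : ℕ, ∃ C : ℝ, 0 < C ∧ ∀ w T : ℕ, 1 ≤ w →
  ∑ t ∈ Icc 1 T, (Dd K w t - 1) ≤ C * (T : ℝ) / w

/-- the tail of the singular series of a set -/
def S_TAIL : Prop := ∀ (H : Finset ℕ) (w y : ℕ), 4 * H.card + 2 ≤ w →
  V1t w y ^ H.card * (∏ h ∈ H, Ff w y h) * (1 - 4 * (H.card : ℝ) ^ 2 / w) ≤ VT H w y ∧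
  VT H w y ≤ V1t w y ^ H.card * (∏ h ∈ H, Ff w y h) *
    (1 + ∑ x ∈ prs H, (Dd ((1 + 4 * H.card) ^ (H.card ^ 2) - 1) w (x.2 - x.1) - 1))

/-- the small primes -/
def S_SMALL : Prop := ∀ (k w : ℕ) (η : ℝ), 0 < η → ∃ T0 : ℕ, ∀ T : ℕ, T0 ≤ T →
  |∑ H ∈ powersetCard k (Icc 1 T), VH H w - (T * V1 w) ^ k / k.factorial| ≤
    η * ((T * V1 w) ^ k / k.factorial)

/-- the average of the singular series -/
def S_AVG : Prop := ∀ (k : ℕ) (η : ℝ), 0 < η → ∃ w T0 : ℕ, ∀ T : ℕ, T0 ≤ T → ∀ y : ℕ, w ≤ y →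
  |∑ H ∈ powersetCard (k + 1) (Icc 1 T), VH H y - (T * V1 y) ^ (k + 1) / (k + 1).factorial| ≤
    η * ((T * V1 y) ^ (k + 1) / (k + 1).factorial)

/-- the Poisson law for large windows -/
def S_LAW : Prop := ∀ (x0 ε : ℝ), 0 ≤ x0 → 0 < ε → ∃ K0 y0 T0 R0 : ℕ, ∀ Z Y y T : ℕ, y0 ≤ y →
  y ^ K0 ≤ Y → T0 ≤ T → T ^ R0 ≤ Y → T * V1 y ≤ x0 → ∀ A : Finset ℕ,
  |(((Ioc Z (Z + Y)).filter (fun n => Ns y T n ∈ A)).card : ℝ) -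
    Y * ∑ j ∈ A, Real.exp (-(T * V1 y)) * (T * V1 y) ^ j / j.factorial| ≤ ε * Y

/-- the Poisson law for all windows of bounded mean -/
def S_LAW2 : Prop := ∀ (θ : ℝ), 0 < θ → ∀ (x0 ε : ℝ), 0 < ε → ∃ r0 : ℕ, ∀ r : ℕ, r0 ≤ r → ∃ X0 : ℕ,
  ∀ X : ℕ, X0 ≤ X → ∀ Z Y : ℕ, (X : ℝ) ^ θ ≤ Y → ∀ T : ℕ,
  T * V1 ⌊(X : ℝ) ^ (1 / (r : ℝ))⌋₊ ≤ x0 → ∀ A : Finset ℕ,
  |(((Ioc Z (Z + Y)).filter (fun n => Ns ⌊(X : ℝ) ^ (1 / (r : ℝ))⌋₊ T n ∈ A)).card : ℝ) -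
    Y * ∑ j ∈ A, Real.exp (-(T * V1 ⌊(X : ℝ) ^ (1 / (r : ℝ))⌋₊)) *
      (T * V1 ⌊(X : ℝ) ^ (1 / (r : ℝ))⌋₊) ^ j / j.factorial| ≤ ε * Y

end Pool.Agent.Y862.SQ
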