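import Pool.Agent.Y862.SQ.Stm

set_option autoImplicit false

/-!
# Project SQ, second part: several windows around several squares, statements of the jobs

Indices are pairs `g = (a, s)`, standing for the polynomial `(n + a) ^ 2 + s`.
-/

namespace Pool.Agent.Y862.SQ

open Finset

/-- the Legendre symbol of `-s` -/
def lez (s : ℤ) (p : ℕ) : ℤ := jacobiSym (-s) p

/-- the singular factor of `n ^ 2 + s` above `w` -/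
noncomputable def Fz (w y : ℕ) (s : ℤ) : ℝ :=
  ∏ p ∈ (pr y).filter (fun p => w < p), (1 - (lez s p : ℝ) / ((p : ℝ) - 1))

/-- number of the classes `r` modulo `p` with `p ∣ (r + a) ^ 2 + s` for some `(a, s)` in `H` -/
def rP (H : Finset (ℕ × ℤ)) (p : ℕ) : ℕ :=
  ((range p).filter (fun r : ℕ => ∃ g ∈ H, (p : ℤ) ∣ ((r : ℤ) + g.1) ^ 2 + g.2)).card

/-- the density of the `n` such that no `(n + a) ^ 2 + s`, `(a, s)` in `H`, has a prime factor up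
to `y` -/
noncomputable def VP (H : Finset (ℕ × ℤ)) (y : ℕ) : ℝ := ∏ p ∈ pr y, (1 - (rP H p : ℝ) / p)

/-- the part above `w` -/
noncomputable def VPT (H : Finset (ℕ × ℤ)) (w y : ℕ) : ℝ :=
  ∏ p ∈ (pr y).filter (fun p => w < p), (1 - (rP H p : ℝ) / p)

/-- the resultant of two polynomials -/
def Rr (g g' : ℕ × ℤ) : ℤ :=
  ((g'.1 : ℤ) - g.1) ^ 4 + 2 * ((g'.1 : ℤ) - g.1) ^ 2 * (g.2 + g'.2) + (g'.2 - g.2) ^ 2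

/-- the collision factor -/
noncomputable def DR (K w : ℕ) (g g' : ℕ × ℤ) : ℝ :=
  ∏ p ∈ (Rr g g').natAbs.primeFactors.filter (fun p => w < p), (1 + (K : ℝ) / p)

open Classical in
/-- the indices of a window: `a` fixed, `s` in `(c, c + L]`, `-s` not a square -/
noncomputable def Wn (a : ℕ) (c : ℤ) (L : ℕ) : Finset (ℕ × ℤ) :=
  ((Ioc c (c + L)).filter (fun s => ¬ IsSquare (-s))).image (fun s => (a, s))

open Classical in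
/-- the families of sets with `r j` indices in the window `j` -/
noncomputable def fam {k : ℕ} (a : Fin k → ℕ) (c : Fin k → ℤ) (L r : Fin k → ℕ) :
    Finset (Fin k → Finset (ℕ × ℤ)) :=
  Fintype.piFinset (fun j => powersetCard (r j) (Wn (a j) (c j) (L j)))

open Classical in
/-- the union of a family -/
noncomputable def un {k : ℕ} (H : Fin k → Finset (ℕ × ℤ)) : Finset (ℕ × ℤ) := univ.biUnion H

/-- admissible windows of size up to `M` -/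
def Win {k : ℕ} (M : ℕ) (a : Fin k → ℕ) (c : Fin k → ℤ) (L : Fin k → ℕ) : Prop :=
  (∀ j, a j ≤ M ∧ -(M : ℤ) ≤ c j ∧ c j + L j ≤ M) ∧
  ∀ i j, i ≠ j → a i = a j → c i + L i ≤ c j ∨ c j + L j ≤ c i

open Classical in
/-- the number of the `s` in the window, `-s` not a square, such that `(n + a) ^ 2 + s` has no
prime factor up to `y` -/
noncomputable def Nj (y a : ℕ) (c : ℤ) (L n : ℕ) : ℕ :=
  ((Ioc c (c + L)).filter (fun s => ¬ IsSquare (-s) ∧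
    ∀ p ∈ pr y, ¬ (p : ℤ) ∣ ((n : ℤ) + a) ^ 2 + s)).card

open Classical in
/-- the number of the `s` in the window such that `(n + a) ^ 2 + s` has no prime factor up to `y` -/
noncomputable def Nk (y a : ℕ) (c : ℤ) (L n : ℕ) : ℕ :=
  ((Ioc c (c + L)).filter (fun s => ∀ p ∈ pr y, ¬ (p : ℤ) ∣ ((n : ℤ) + a) ^ 2 + s)).card

/-- an elementary large sieve for the symbols of `-s` -/
def S_ELSZ : Prop := ∀ (M N : ℕ) (a : ℕ → ℝ), (∀ n, Even n → a n = 0) →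
  ∑ s ∈ Icc (-(M : ℤ)) M, (∑ n ∈ Icc 1 N, a n * (jacobiSym (-s) n : ℝ)) ^ 2 ≤
    (4 * N * √((M : ℝ) + 1) + 100 * ((M : ℝ) + 1) ^ 3) * ∑ n ∈ Icc 1 N, a n ^ 2

/-- few exceptions in the middle range -/
def S_EXCZ : Prop := ∀ δ : ℝ, 0 < δ → ∃ M0 : ℕ, ∀ M : ℕ, M0 ≤ M → ∀ y : ℕ,
  (((Icc (-(M : ℤ)) M).filter (fun s => δ < |∑ p ∈ (pr y).filter
    (fun p : ℕ => z1 M < p ∧ (p : ℝ) ≤ z2 M), (lez s p : ℝ) / p|)).card : ℝ) ≤ (M : ℝ) ^ (9 / 10 : ℝ)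

/-- second moment for the small primes -/
def S_F1Z : Prop := ∃ w0 : ℕ, ∀ w : ℕ, w0 ≤ w → ∃ M0 : ℕ, ∀ M : ℕ, M0 ≤ M → ∀ y : ℕ,
  ∑ s ∈ Icc (-(M : ℤ)) M, ((∏ p ∈ (pr y).filter (fun p : ℕ => w < p ∧ (p : ℝ) ≤ z1 M),
    (1 - (lez s p : ℝ) / ((p : ℝ) - 1))) - 1) ^ 2 ≤ 12 * (M : ℝ) / w

/-- the large primes, from the theorem of Siegel and Walfisz -/
def S_SW3Z : Prop := ∃ M0 : ℕ, ∀ M : ℕ, M0 ≤ M → ∀ s ∈ Icc (-(M : ℤ)) M, ¬ IsSquare (-s) → ∀ y : ℕ,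
  |∑ p ∈ (pr y).filter (fun p : ℕ => z2 M < p), (lez s p : ℝ) / p| ≤ 1 / M

/-- the singular factors are close to one in mean square -/
def S_FMZ : Prop := ∃ w0 : ℕ, ∀ w : ℕ, w0 ≤ w → ∃ M0 : ℕ, ∀ M : ℕ, M0 ≤ M → ∀ y : ℕ,
  ∑ s ∈ Icc (-(M : ℤ)) M, (Fz w y s - 1) ^ 2 ≤ (M : ℝ) / √(w : ℝ)

open Classical in
/-- collisions on average -/
def S_COLLR : Prop := ∀ K : ℕ, ∃ C : ℝ, 0 < C ∧ ∀ w : ℕ, 1 ≤ w → ∃ M0 : ℕ, ∀ M : ℕ, M0 ≤ M →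
  ∀ (g : ℕ × ℤ) (a' : ℕ), g.1 ≤ M → a' ≤ M → |g.2| ≤ M → ¬ IsSquare (-g.2) →
  ∑ s ∈ (Icc (-(M : ℤ)) M).filter (fun s => ¬ IsSquare (-s) ∧ (a', s) ≠ g),
    (DR K w g (a', s) - 1) ≤ C * (M : ℝ) / w

/-- the tail of the singular series of a set -/
def S_TAILZ : Prop := ∀ (H : Finset (ℕ × ℤ)) (w y : ℕ), 4 * H.card + 2 ≤ w →
  (∀ g ∈ H, ∀ g' ∈ H, g ≠ g' → Rr g g' ≠ 0) →
  V1t w y ^ H.card * (∏ g ∈ H, Fz w y g.2) * (1 - 4 * (H.card : ℝ) ^ 2 / w) ≤ VPT H w y ∧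
  VPT H w y ≤ V1t w y ^ H.card * (∏ g ∈ H, Fz w y g.2) *
    (1 + ∑ x ∈ H.offDiag, (DR ((1 + 4 * H.card) ^ (H.card ^ 2) - 1) w x.1 x.2 - 1))

/-- the small primes -/
def S_SMALLZ : Prop := ∀ (k R w : ℕ) (η : ℝ), 0 < η → ∃ M0 : ℕ, ∀ M : ℕ, M0 ≤ M →
  ∀ (a : Fin k → ℕ) (c : Fin k → ℤ) (L r : Fin k → ℕ), Win M a c L → (∀ j, r j < R) →
  |∑ H ∈ fam a c L r, VP (un H) w - ∏ j, ((L j * V1 w) ^ r j / (r j).factorial)| ≤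
    η * (M : ℝ) ^ (∑ j, r j)

/-- the average of the singular series -/
def S_AVGZ : Prop := ∀ (k R : ℕ) (η : ℝ), 0 < η → ∃ w M0 : ℕ, ∀ M : ℕ, M0 ≤ M → ∀ y : ℕ, w ≤ y →
  ∀ (a : Fin k → ℕ) (c : Fin k → ℤ) (L r : Fin k → ℕ), Win M a c L → (∀ j, r j < R) →
  |∑ H ∈ fam a c L r, VP (un H) y - ∏ j, ((L j * V1 y) ^ r j / (r j).factorial)| ≤
    η * (M * V1 y) ^ (∑ j, r j)

open Classical in
/-- the joint Poisson law, squares excluded -/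
def S_LAWJ : Prop := ∀ (k : ℕ) (x0 ε : ℝ), 0 ≤ x0 → 0 < ε → ∃ K0 y0 M0 R0 : ℕ, ∀ Z Y y M : ℕ,
  y0 ≤ y → y ^ K0 ≤ Y → M0 ≤ M → M ^ R0 ≤ Y → M * V1 y ≤ x0 →
  ∀ (a : Fin k → ℕ) (c : Fin k → ℤ) (L : Fin k → ℕ), Win M a c L → ∀ A : Finset (Fin k → ℕ),
  |(((Ioc Z (Z + Y)).filter (fun n => (fun j => Nj y (a j) (c j) (L j) n) ∈ A)).card : ℝ) -
    Y * ∑ v ∈ A, ∏ j, (Real.exp (-(L j * V1 y)) * (L j * V1 y) ^ v j / (v j).factorial)| ≤ ε * Y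

open Classical in
/-- the joint Poisson law -/
def S_LAWK : Prop := ∀ (k : ℕ) (θ : ℝ), 0 < θ → ∀ (x0 ε : ℝ), 0 < ε → ∃ r0 : ℕ, ∀ r : ℕ, r0 ≤ r →
  ∃ X0 : ℕ, ∀ X : ℕ, X0 ≤ X → ∀ Z Y : ℕ, (X : ℝ) ^ θ ≤ Y → ∀ M : ℕ,
  M * V1 ⌊(X : ℝ) ^ (1 / (r : ℝ))⌋₊ ≤ x0 →
  ∀ (a : Fin k → ℕ) (c : Fin k → ℤ) (L : Fin k → ℕ), Win M a c L → ∀ A : Finset (Fin k → ℕ),
  |(((Ioc Z (Z + Y)).filter
    (fun n => (fun j => Nk ⌊(X : ℝ) ^ (1 / (r : ℝ))⌋₊ (a j) (c j) (L j) n) ∈ A)).card : ℝ) -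
    Y * ∑ v ∈ A, ∏ j, (Real.exp (-(L j * V1 ⌊(X : ℝ) ^ (1 / (r : ℝ))⌋₊)) *
      (L j * V1 ⌊(X : ℝ) ^ (1 / (r : ℝ))⌋₊) ^ v j / (v j).factorial)| ≤ ε * Y

end Pool.Agent.Y862.SQ
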