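import Pool.Agent.Y862.SQ.Stm2

set_option autoImplicit false

/-!
# Project SQ, third part: windows around squares of primes, statements of the jobs

The condition that `n` is a unit modulo `p` is the index `(0, 0)`, standing for the polynomial `n ^ 2`.
-/

namespace Pool.Agent.Y862.SQ

open Finset

open Classical in
/-- collisions with the index `(0, 0)` on average -/
def S_COL0 : Prop := ∀ K : ℕ, ∃ C : ℝ, 0 < C ∧ ∀ w : ℕ, 1 ≤ w → ∃ M0 : ℕ, ∀ M : ℕ, M0 ≤ M →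
  ∀ a' : ℕ, a' ≤ M →
  ∑ s ∈ (Icc (-(M : ℤ)) M).filter (fun s => ¬ IsSquare (-s)), (DR K w (0, 0) (a', s) - 1) ≤
    C * (M : ℝ) / w

/-- the small primes -/
def S_SMALLQ : Prop := ∀ (k R w : ℕ) (η : ℝ), 0 < η → ∃ M0 : ℕ, ∀ M : ℕ, M0 ≤ M →
  ∀ (a : Fin k → ℕ) (c : Fin k → ℤ) (L r : Fin k → ℕ), Win M a c L → (∀ j, r j < R) →
  |∑ H ∈ fam a c L r, VP (insert (0, 0) (un H)) w -
    V1 w * ∏ j, ((L j * V1 w) ^ r j / (r j).factorial)| ≤ η * (M : ℝ) ^ (∑ j, r j)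

/-- the average of the singular series -/
def S_AVGQ : Prop := ∀ (k R : ℕ) (η : ℝ), 0 < η → ∃ w M0 : ℕ, ∀ M : ℕ, M0 ≤ M → ∀ y : ℕ, w ≤ y →
  ∀ (a : Fin k → ℕ) (c : Fin k → ℤ) (L r : Fin k → ℕ), Win M a c L → (∀ j, r j < R) →
  |∑ H ∈ fam a c L r, VP (insert (0, 0) (un H)) y -
    V1 y * ∏ j, ((L j * V1 y) ^ r j / (r j).factorial)| ≤ η * (V1 y * (M * V1 y) ^ (∑ j, r j))

/-- joint moments with the weight of von Mangoldt -/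
def S_LMOM : Prop := ∀ (k R : ℕ) (δ x0 η : ℝ), 0 < δ → 0 ≤ x0 → 0 < η → ∃ r0 : ℕ, ∀ r : ℕ, r0 ≤ r →
  ∃ X0 M0 : ℕ, ∀ X : ℕ, X0 ≤ X → ∀ Z Y : ℕ, X ≤ Z → Z + Y ≤ 2 * X → δ * X ≤ Y → ∀ M : ℕ, M0 ≤ M →
  M * V1 ⌊(X : ℝ) ^ (1 / (r : ℝ))⌋₊ ≤ x0 →
  ∀ (a : Fin k → ℕ) (c : Fin k → ℤ) (L q : Fin k → ℕ), Win M a c L → (∀ j, q j < R) →
  |∑ n ∈ Ioc Z (Z + Y), ArithmeticFunction.vonMangoldt n *
      ∏ j, ((Nj ⌊(X : ℝ) ^ (1 / (r : ℝ))⌋₊ (a j) (c j) (L j) n).choose (q j) : ℝ) -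
    Y * ∏ j, ((L j * V1 ⌊(X : ℝ) ^ (1 / (r : ℝ))⌋₊) ^ q j / (q j).factorial)| ≤ η * Y

open Classical in
/-- the joint Poisson law at primes, squares excluded -/
def S_PJ : Prop := ∀ (k : ℕ) (δ x0 ε : ℝ), 0 < δ → 0 ≤ x0 → 0 < ε → ∃ r0 : ℕ, ∀ r : ℕ, r0 ≤ r →
  ∃ X0 M0 : ℕ, ∀ X : ℕ, X0 ≤ X → ∀ Z Y : ℕ, X ≤ Z → Z + Y ≤ 2 * X → δ * X ≤ Y → ∀ M : ℕ, M0 ≤ M →
  M * V1 ⌊(X : ℝ) ^ (1 / (r : ℝ))⌋₊ ≤ x0 →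
  ∀ (a : Fin k → ℕ) (c : Fin k → ℤ) (L : Fin k → ℕ), Win M a c L → ∀ A : Finset (Fin k → ℕ),
  |((((Ioc Z (Z + Y)).filter Nat.Prime).filter
      (fun n => (fun j => Nj ⌊(X : ℝ) ^ (1 / (r : ℝ))⌋₊ (a j) (c j) (L j) n) ∈ A)).card : ℝ) -
    ((Ioc Z (Z + Y)).filter Nat.Prime).card *
      ∑ v ∈ A, ∏ j, (Real.exp (-(L j * V1 ⌊(X : ℝ) ^ (1 / (r : ℝ))⌋₊)) *
      (L j * V1 ⌊(X : ℝ) ^ (1 / (r : ℝ))⌋₊) ^ v j / (v j).factorial)| ≤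
    ε * ((Ioc Z (Z + Y)).filter Nat.Prime).card

open Classical in
/-- the number of the `s` in the window, `(n + a) ^ 2 + s ≠ n ^ 2`, such that `(n + a) ^ 2 + s` has no
prime factor up to `y` -/
noncomputable def Nq (y a : ℕ) (c : ℤ) (L n : ℕ) : ℕ :=
  ((Ioc c (c + L)).filter (fun s => ((n : ℤ) + a) ^ 2 + s ≠ (n : ℤ) ^ 2 ∧
    ∀ p ∈ pr y, ¬ (p : ℤ) ∣ ((n : ℤ) + a) ^ 2 + s)).card

open Classical in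
/-- the joint Poisson law at primes, `k` windows around squares -/
def S_PK : Prop := ∀ (k : ℕ) (δ x0 ε : ℝ), 0 < δ → 0 < ε → ∃ r0 : ℕ, ∀ r : ℕ, r0 ≤ r → ∃ X0 : ℕ,
  ∀ X : ℕ, X0 ≤ X → ∀ Z Y : ℕ, X ≤ Z → Z + Y ≤ 2 * X → δ * X ≤ Y → ∀ M : ℕ,
  M * V1 ⌊(X : ℝ) ^ (1 / (r : ℝ))⌋₊ ≤ x0 →
  ∀ (a : Fin k → ℕ) (c : Fin k → ℤ) (L : Fin k → ℕ), Win M a c L → ∀ A : Finset (Fin k → ℕ),
  |((((Ioc Z (Z + Y)).filter Nat.Prime).filter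
      (fun n => (fun j => Nq ⌊(X : ℝ) ^ (1 / (r : ℝ))⌋₊ (a j) (c j) (L j) n) ∈ A)).card : ℝ) -
    ((Ioc Z (Z + Y)).filter Nat.Prime).card *
      ∑ v ∈ A, ∏ j, (Real.exp (-(L j * V1 ⌊(X : ℝ) ^ (1 / (r : ℝ))⌋₊)) *
      (L j * V1 ⌊(X : ℝ) ^ (1 / (r : ℝ))⌋₊) ^ v j / (v j).factorial)| ≤
    ε * ((Ioc Z (Z + Y)).filter Nat.Prime).card

end Pool.Agent.Y862.SQ
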