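import Pool.Agent.Y862.SQ.Stm

set_option autoImplicit false

/-!
# Project SQ: the law of large numbers from the first two moments
-/

namespace Pool.Agent.Y862.SQ

open Finset

/-- binomial moments -/
def S_MOM : Prop := ∀ (k : ℕ) (η : ℝ), 0 < η → ∃ K0 y0 T0 : ℕ, ∀ Z Y y T : ℕ, y0 ≤ y →
  y ^ K0 ≤ Y → T0 ≤ T →
  |∑ n ∈ Ioc Z (Z + Y), ((Ns y T n).choose (k + 1) : ℝ) -
    Y * ((T * V1 y) ^ (k + 1) / (k + 1).factorial)| ≤
    η * Y * ((T * V1 y) ^ (k + 1) / (k + 1).factorial) + T ^ (k + 1) * √(Y : ℝ)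

lemma two_choose (w : ℕ) : (w : ℝ) ^ 2 = 2 * (w.choose 2 : ℝ) + w := by
  rw [Nat.cast_choose_two]
  ring

lemma V1_nonneg (y : ℕ) : 0 ≤ V1 y := by
  unfold V1
  apply Finset.prod_nonneg
  intro p hp
  have hp1 : (1 : ℝ) ≤ p := by
    unfold pr at hp
    rw [mem_filter] at hp
    exact_mod_cast hp.2.one_lt.le
  rw [sub_nonneg, div_le_one (by linarith)]
  exact hp1

lemma V1_le_one (y : ℕ) : V1 y ≤ 1 := by
  unfold V1
  apply Finset.prod_le_one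
  · intro p hp
    have hp1 : (1 : ℝ) ≤ p := by
      unfold pr at hp
      rw [mem_filter] at hp
      exact_mod_cast hp.2.one_lt.le
    rw [sub_nonneg, div_le_one (by linarith)]
    exact hp1
  · intro p hp
    have : (0 : ℝ) ≤ 1 / (p : ℝ) := by positivity
    linarith

/-- **law of large numbers** -/
theorem lln (hmom : S_MOM) (ε : ℝ) (hε : 0 < ε) (hε1 : ε ≤ 1) :
    ∃ (K : ℝ) (K0 y0 T0 : ℕ), 0 < K ∧ ∀ Z Y y T : ℕ, y0 ≤ y → y ^ K0 ≤ Y → T0 ≤ T →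
      T ^ 5 ≤ 1024 * Y → K ≤ T * V1 y →
      (((Ioc Z (Z + Y)).filter (fun n => ε * (T * V1 y) < |(Ns y T n : ℝ) - T * V1 y|)).card : ℝ) ≤
        ε * Y := by
  obtain ⟨η, hη⟩ : ∃ η : ℝ, η = ε ^ 3 / 12 := ⟨_, rfl⟩
  have hη0 : 0 < η := by rw [hη]; positivity
  have hη1 : η ≤ 1 := by
    rw [hη]
    have : ε ^ 3 ≤ 1 := pow_le_one₀ hε.le hε1
    linarith
  obtain ⟨Ka, ya, Ta, ha⟩ := hmom 0 η hη0
  obtain ⟨Kb, yb, Tb, hb⟩ := hmom 1 η hη0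
  obtain ⟨Tc, hTc⟩ := exists_nat_ge (1024 * (20 / ε ^ 3) ^ 2)
  refine ⟨12 / ε ^ 3, Ka + Kb, ya + yb + 1, Ta + Tb + Tc + 1, by positivity, ?_⟩
  intro Z Y y T hy hyY hT hT5 hK
  obtain ⟨x, hx⟩ : ∃ x, x = T * V1 y := ⟨_, rfl⟩
  rw [← hx] at hK ⊢
  have hy1 : 1 ≤ y := by omega
  have hT1 : (1 : ℝ) ≤ T := by exact_mod_cast (by omega : 1 ≤ T)
  have hx1 : 1 ≤ x := by
    refine le_trans ?_ hK
    rw [le_div_iff₀ (by positivity)]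
    have : ε ^ 3 ≤ 1 := pow_le_one₀ hε.le hε1
    linarith
  have hxT : x ≤ T := by
    rw [hx]
    have := mul_le_mul_of_nonneg_left (V1_le_one y) (by linarith : (0 : ℝ) ≤ T)
    linarith
  have h1 := ha Z Y y T (by omega) ((Nat.pow_le_pow_right hy1 (by omega)).trans hyY) (by omega)
  have h2 := hb Z Y y T (by omega) ((Nat.pow_le_pow_right hy1 (by omega)).trans hyY) (by omega)
  rw [← hx] at h1 h2
  simp only [zero_add, Nat.choose_one_right, pow_one, Nat.factorial_one, Nat.cast_one, div_one] at h1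
  have hf2 : (((1 + 1).factorial : ℕ) : ℝ) = 2 := by norm_num [Nat.factorial]
  rw [hf2] at h2
  norm_num at h2
  obtain ⟨A1, hA1⟩ : ∃ A1 : ℝ, A1 = ∑ n ∈ Ioc Z (Z + Y), (Ns y T n : ℝ) := ⟨_, rfl⟩
  obtain ⟨A2, hA2⟩ : ∃ A2 : ℝ, A2 = ∑ n ∈ Ioc Z (Z + Y), ((Ns y T n).choose 2 : ℝ) := ⟨_, rfl⟩
  rw [← hA1] at h1
  rw [← hA2] at h2
  have hYpos : 0 < Y := by
    have : 1 ≤ T ^ 5 := Nat.one_le_pow _ _ (by omega)
    omega
  have hY0 : (0 : ℝ) < Y := by exact_mod_cast hYpos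
  have hs0 : 0 ≤ √(Y : ℝ) := Real.sqrt_nonneg _
  have hcard : ((Ioc Z (Z + Y)).card : ℝ) = Y := by
    rw [Nat.card_Ioc]
    congr 1
    omega
  have hvar : ∑ n ∈ Ioc Z (Z + Y), ((Ns y T n : ℝ) - x) ^ 2 = 2 * A2 + A1 - 2 * x * A1 + Y * x ^ 2 := by
    have e : ∀ n ∈ Ioc Z (Z + Y), ((Ns y T n : ℝ) - x) ^ 2 =
        2 * ((Ns y T n).choose 2 : ℝ) + Ns y T n - 2 * x * Ns y T n + x ^ 2 := by
      intro n _
      have := two_choose (Ns y T n)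
      nlinarith
    rw [Finset.sum_congr rfl e, Finset.sum_add_distrib, Finset.sum_sub_distrib, Finset.sum_add_distrib,
      ← Finset.mul_sum, ← Finset.mul_sum, Finset.sum_const, nsmul_eq_mul, hcard, hA1, hA2]
  -- sizes of the error terms
  have hsq : √(Y : ℝ) * √(Y : ℝ) = Y := Real.mul_self_sqrt hY0.le
  have hTY : (T : ℝ) ^ 2 * (20 / ε ^ 3) ≤ √(Y : ℝ) := by
    apply Real.le_sqrt_of_sq_le
    have h3 : (1024 * (20 / ε ^ 3) ^ 2 : ℝ) ≤ T := hTc.trans (by exact_mod_cast (by omega : Tc ≤ T))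
    have h4 : (T : ℝ) ^ 5 ≤ 1024 * Y := by exact_mod_cast hT5
    have h5 : 1024 * ((T : ℝ) ^ 2 * (20 / ε ^ 3)) ^ 2 ≤ (T : ℝ) ^ 5 := by
      calc 1024 * ((T : ℝ) ^ 2 * (20 / ε ^ 3)) ^ 2 = (T : ℝ) ^ 4 * (1024 * (20 / ε ^ 3) ^ 2) := by ring
        _ ≤ (T : ℝ) ^ 4 * T := by gcongr
        _ = (T : ℝ) ^ 5 := by ring
    linarith
  have hTY2 : (T : ℝ) ^ 2 * √(Y : ℝ) * 20 ≤ ε ^ 3 * Y := by
    have h3 := mul_le_mul_of_nonneg_right hTY hs0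
    rw [hsq] at h3
    have h4 : 0 < ε ^ 3 := by positivity
    calc (T : ℝ) ^ 2 * √(Y : ℝ) * 20 = ε ^ 3 * ((T : ℝ) ^ 2 * (20 / ε ^ 3) * √(Y : ℝ)) := by
          field_simp
      _ ≤ ε ^ 3 * Y := mul_le_mul_of_nonneg_left h3 h4.le
  have hbound : ∑ n ∈ Ioc Z (Z + Y), ((Ns y T n : ℝ) - x) ^ 2 ≤ ε ^ 3 * x ^ 2 * Y := by
    rw [hvar]
    have k1 := (abs_le.1 h1).1
    have k1' := (abs_le.1 h1).2
    have k2' := (abs_le.1 h2).2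
    have hT2 : (T : ℝ) ≤ T ^ 2 := by nlinarith
    have hxT2 : x * T ≤ (T : ℝ) ^ 2 := by nlinarith
    have hYx : 0 ≤ Y * x := by positivity
    -- 2 A2 <= (1 + η) Y x^2 + 2 T^2 √Y
    have m1 : 2 * A2 ≤ (1 + η) * (Y * x ^ 2) + 2 * (T : ℝ) ^ 2 * √(Y : ℝ) := by nlinarith
    have m2 : A1 ≤ (1 + η) * (Y * x) + T * √(Y : ℝ) := by nlinarith
    have m3 : (1 - η) * (Y * x) - T * √(Y : ℝ) ≤ A1 := by nlinarith
    have m4 : 2 * x * ((1 - η) * (Y * x) - T * √(Y : ℝ)) ≤ 2 * x * A1 :=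
      mul_le_mul_of_nonneg_left m3 (by linarith)
    have m5 : (T : ℝ) * √(Y : ℝ) ≤ (T : ℝ) ^ 2 * √(Y : ℝ) := mul_le_mul_of_nonneg_right hT2 hs0
    have m6 : x * T * √(Y : ℝ) ≤ (T : ℝ) ^ 2 * √(Y : ℝ) := mul_le_mul_of_nonneg_right hxT2 hs0
    have m7 : (1 + η) * (Y * x) ≤ 2 * (Y * x) := mul_le_mul_of_nonneg_right (by linarith) hYx
    have m8 : 2 * (Y * x) ≤ ε ^ 3 / 6 * (Y * x ^ 2) := by
      have h4 : 12 ≤ ε ^ 3 * x := by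
        rw [div_le_iff₀ (by positivity)] at hK
        linarith
      have h5 := mul_le_mul_of_nonneg_right h4 hYx
      nlinarith
    have m9 : 3 * η * (Y * x ^ 2) = ε ^ 3 / 4 * (Y * x ^ 2) := by rw [hη]; ring
    have m10 : ε ^ 3 * Y ≤ ε ^ 3 * x ^ 2 * Y := by
      have h5 : 1 ≤ x ^ 2 := one_le_pow₀ hx1
      have h6 : 0 ≤ ε ^ 3 * Y := by positivity
      nlinarith
    calc 2 * A2 + A1 - 2 * x * A1 + Y * x ^ 2 ≤ ((1 + η) * (Y * x ^ 2) + 2 * (T : ℝ) ^ 2 * √(Y : ℝ)) +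
          ((1 + η) * (Y * x) + T * √(Y : ℝ)) - 2 * x * ((1 - η) * (Y * x) - T * √(Y : ℝ)) + Y * x ^ 2 := by
          linarith
      _ = 3 * η * (Y * x ^ 2) + (1 + η) * (Y * x) + 2 * (T : ℝ) ^ 2 * √(Y : ℝ) + T * √(Y : ℝ) +
          2 * (x * T * √(Y : ℝ)) := by ring
      _ ≤ ε ^ 3 / 4 * (Y * x ^ 2) + ε ^ 3 / 6 * (Y * x ^ 2) + 5 * ((T : ℝ) ^ 2 * √(Y : ℝ)) := by linarith
      _ ≤ ε ^ 3 / 4 * (Y * x ^ 2) + ε ^ 3 / 6 * (Y * x ^ 2) + ε ^ 3 * x ^ 2 * Y / 4 := by linarith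
      _ ≤ ε ^ 3 * x ^ 2 * Y := by
        have : 0 ≤ ε ^ 3 * x ^ 2 * Y := by positivity
        nlinarith
  -- Chebyshev
  obtain ⟨F, hF⟩ : ∃ F, F = (Ioc Z (Z + Y)).filter (fun n => ε * x < |(Ns y T n : ℝ) - x|) := ⟨_, rfl⟩
  rw [← hF]
  have hcheb : (F.card : ℝ) * (ε * x) ^ 2 ≤ ∑ n ∈ Ioc Z (Z + Y), ((Ns y T n : ℝ) - x) ^ 2 := by
    calc (F.card : ℝ) * (ε * x) ^ 2 = ∑ _n ∈ F, (ε * x) ^ 2 := by rw [Finset.sum_const, nsmul_eq_mul]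
      _ ≤ ∑ n ∈ F, ((Ns y T n : ℝ) - x) ^ 2 := by
        apply Finset.sum_le_sum
        intro n hn
        rw [hF, mem_filter] at hn
        rw [← sq_abs ((Ns y T n : ℝ) - x)]
        apply pow_le_pow_left₀ (by positivity) hn.2.le
      _ ≤ _ := by
        rw [hF]
        apply Finset.sum_le_sum_of_subset_of_nonneg (filter_subset _ _)
        intros
        positivity
  have hpos : 0 < (ε * x) ^ 2 := by positivity
  have h5 : (F.card : ℝ) * (ε * x) ^ 2 ≤ ε * Y * (ε * x) ^ 2 := by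
    refine (hcheb.trans hbound).trans (le_of_eq ?_)
    ring
  exact le_of_mul_le_mul_right h5 hpos

end Pool.Agent.Y862.SQ
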