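import Pool.Agent.Y862.SQ.Lln

set_option autoImplicit false

/-!
# Project SQ: the law of large numbers, uniform in the length of the window
-/

namespace Pool.Agent.Y862.SQ

open Finset

lemma Ns_mono (y : ℕ) {s t : ℕ} (h : s ≤ t) (n : ℕ) : Ns y s n ≤ Ns y t n := by
  unfold Ns
  apply card_le_card
  intro a ha
  rw [mem_filter, mem_Icc] at ha ⊢
  exact ⟨⟨ha.1.1, ha.1.2.trans h⟩, ha.2⟩

/-- the real inequalities -/
lemma close (ε x a b c N1 N2 N : ℝ) (hε : 0 < ε) (hε1 : ε ≤ 1)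
    (ha : 0 ≤ a) (hx : 0 ≤ x) (hac : a ≤ c) (hca : c ≤ (1 + ε / 8) * a)
    (hbc : b ≤ (1 + ε / 4) * c)
    (h1 : |N1 - a * x| ≤ ε / 8 * (a * x)) (h2 : |N2 - b * x| ≤ ε / 8 * (b * x)) (hN1 : N1 ≤ N)
    (hN2 : N ≤ N2) : |N - c * x| ≤ ε * (c * x) := by
  have k1 := (abs_le.1 h1).1
  have k2 := (abs_le.1 h2).2
  have hcx : 0 ≤ c * x := mul_nonneg (ha.trans hac) hx
  have hb : b * x ≤ (1 + ε / 4) * (c * x) := by
    have := mul_le_mul_of_nonneg_right hbc hx
    linarith
  have hc : c * x ≤ (1 + ε / 8) * (a * x) := by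
    have := mul_le_mul_of_nonneg_right hca hx
    linarith
  have hax : 0 ≤ a * x := mul_nonneg ha hx
  have hacx : a * x ≤ c * x := mul_le_mul_of_nonneg_right hac hx
  rw [abs_le]
  constructor
  · have : c * x - a * x ≤ ε / 8 * (c * x) := by nlinarith
    nlinarith
  · have h3 : N2 ≤ (1 + ε / 8) * (b * x) := by linarith
    have h4 : (1 + ε / 8) * (b * x) ≤ (1 + ε / 8) * ((1 + ε / 4) * (c * x)) :=
      mul_le_mul_of_nonneg_left hb (by linarith)
    have h5 : (1 + ε / 8) * ((1 + ε / 4) * (c * x)) ≤ (1 + ε) * (c * x) := by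
      rw [← mul_assoc]
      apply mul_le_mul_of_nonneg_right _ hcx
      nlinarith
    linarith

/-- the law of large numbers fails for some length between `T` and `2 T` -/
def Bad (ε : ℝ) (y T n : ℕ) : Prop := ∃ t ∈ Icc T (2 * T),
  ε * (t * V1 y) < |(Ns y t n : ℝ) - t * V1 y|

open Classical in
/-- **law of large numbers, uniform in the length** -/
theorem lln_unif (hmom : S_MOM) (ε : ℝ) (hε : 0 < ε) (hε1 : ε ≤ 1) :
    ∃ (K : ℝ) (K0 y0 T0 : ℕ), 0 < K ∧ ∀ Z Y y T : ℕ, y0 ≤ y → y ^ K0 ≤ Y → T0 ≤ T → T ^ 5 ≤ Y →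
      K ≤ T * V1 y →
      (((Ioc Z (Z + Y)).filter (fun n => Bad ε y T n)).card : ℝ) ≤ ε * Y := by
  obtain ⟨q, hq⟩ : ∃ q : ℝ, q = 1 + ε / 8 := ⟨_, rfl⟩
  have hq1 : 1 < q := by rw [hq]; linarith
  obtain ⟨J, hJ⟩ : ∃ J : ℕ, 2 < q ^ J := pow_unbounded_of_one_lt 2 hq1
  obtain ⟨δ, hδ⟩ : ∃ δ : ℝ, δ = ε / (8 * (J + 1)) := ⟨_, rfl⟩
  have hJ1 : (1 : ℝ) ≤ (J : ℝ) + 1 := by
    have : (0 : ℝ) ≤ J := Nat.cast_nonneg J
    linarith
  have hδ0 : 0 < δ := by rw [hδ]; positivity
  have hδε : δ ≤ ε / 8 := by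
    rw [hδ]
    apply div_le_div_of_nonneg_left hε.le (by norm_num)
    linarith
  have hδJ : (J + 1) * δ ≤ ε := by
    rw [hδ]
    have : ((J : ℝ) + 1) * (ε / (8 * (J + 1))) = ε / 8 := by field_simp
    rw [this]
    linarith
  obtain ⟨K, K0, y0, T0, hK, hl⟩ := lln hmom δ hδ0 (by linarith)
  obtain ⟨T1, hT1⟩ := exists_nat_ge (16 / ε)
  refine ⟨K, K0, y0, T0 + T1 + 1, hK, ?_⟩
  intro Z Y y T hy hyY hT hT5 hKT
  have hV0 := V1_nonneg y
  have hT1' : (16 / ε : ℝ) ≤ T := hT1.trans (by exact_mod_cast (by omega : T1 ≤ T))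
  have hTpos : (1 : ℝ) ≤ T := by exact_mod_cast (by omega : 1 ≤ T)
  -- the grid
  obtain ⟨g, hg⟩ : ∃ g : ℕ → ℕ, ∀ i, g i = min ⌈q ^ i * T⌉₊ (2 * T) := ⟨fun i => _, fun i => rfl⟩
  have hgT : ∀ i, T ≤ g i := by
    intro i
    rw [hg]
    apply le_min _ (by omega)
    have h1 : (1 : ℝ) ≤ q ^ i := one_le_pow₀ hq1.le
    have h2 : (T : ℝ) ≤ q ^ i * T := by nlinarith
    exact_mod_cast h2.trans (Nat.le_ceil _)
  have hg2 : ∀ i, g i ≤ 2 * T := by
    intro i
    rw [hg]
    exact min_le_right _ _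
  have hgJ : g J = 2 * T := by
    rw [hg]
    apply min_eq_right
    have h2 : ((2 * T : ℕ) : ℝ) ≤ q ^ J * T := by
      push_cast
      nlinarith
    exact_mod_cast h2.trans (Nat.le_ceil _)
  have hg0 : g 0 = T := by
    rw [hg]
    rw [pow_zero, one_mul, Nat.ceil_natCast]
    omega
  have hE : ∀ i, (((Ioc Z (Z + Y)).filter (fun n =>
      δ * (g i * V1 y) < |(Ns y (g i) n : ℝ) - g i * V1 y|)).card : ℝ) ≤ δ * Y := by
    intro i
    apply hl Z Y y (g i) hy hyY (by have := hgT i; omega)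
    · calc (g i) ^ 5 ≤ (2 * T) ^ 5 := Nat.pow_le_pow_left (hg2 i) 5
        _ = 32 * T ^ 5 := by ring
        _ ≤ 1024 * Y := by omega
    · refine hKT.trans (mul_le_mul_of_nonneg_right ?_ hV0)
      exact_mod_cast hgT i
  have hsub : (Ioc Z (Z + Y)).filter (fun n => Bad ε y T n) ⊆
      (range (J + 1)).biUnion (fun i => (Ioc Z (Z + Y)).filter (fun n =>
      δ * (g i * V1 y) < |(Ns y (g i) n : ℝ) - g i * V1 y|)) := by
    intro n hn
    rw [mem_filter] at hn
    obtain ⟨hn1, t, ht, hbad⟩ := hn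
    rw [mem_Icc] at ht
    by_contra hcon
    rw [mem_biUnion] at hcon
    push Not at hcon
    have hgood : ∀ i ≤ J, |(Ns y (g i) n : ℝ) - g i * V1 y| ≤ ε / 8 * (g i * V1 y) := by
      intro i hi
      have h1 := hcon i (mem_range.2 (by omega))
      rw [mem_filter] at h1
      push Not at h1
      refine (h1 hn1).trans (mul_le_mul_of_nonneg_right hδε (by positivity))
    -- the largest grid point below t
    rcases Nat.lt_or_ge t (2 * T) with hlt | hge
    · have hex : ∃ i, t < g i := ⟨J, by rw [hgJ]; exact hlt⟩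
      obtain ⟨i, hi, hmin⟩ : ∃ i, t < g i ∧ ∀ j < i, g j ≤ t :=
        ⟨Nat.find hex, Nat.find_spec hex, fun j hj => by
          have := Nat.find_min hex hj
          omega⟩
      have hi0 : i ≠ 0 := by
        rintro rfl
        rw [hg0] at hi
        omega
      obtain ⟨j, rfl⟩ := Nat.exists_eq_succ_of_ne_zero hi0
      have hj := hmin j (by omega)
      have hjJ : j < J := by
        by_contra hcc
        push Not at hcc
        have hJJ := hmin J (by omega)
        rw [hgJ] at hJJ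
        omega
      have hub : (g (j + 1) : ℝ) ≤ q * (q ^ j * T) + 1 := by
        have h1 : g (j + 1) ≤ ⌈q ^ (j + 1) * T⌉₊ := by rw [hg]; exact min_le_left _ _
        have h2 : ((⌈q ^ (j + 1) * T⌉₊ : ℕ) : ℝ) < q ^ (j + 1) * T + 1 :=
          Nat.ceil_lt_add_one (by positivity)
        have h3 : (g (j + 1) : ℝ) ≤ (⌈q ^ (j + 1) * T⌉₊ : ℕ) := by exact_mod_cast h1
        have h4 : q ^ (j + 1) * (T : ℝ) = q * (q ^ j * T) := by ring
        linarith
      have hlow : q ^ j * T ≤ g j := by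
        have h1 : g j = ⌈q ^ j * T⌉₊ := by
          rw [hg]
          apply min_eq_left
          by_contra hcc
          push Not at hcc
          have : g j = 2 * T := by rw [hg]; exact min_eq_right hcc.le
          omega
        rw [h1]
        exact Nat.le_ceil _
      have hjt : (g j : ℝ) ≤ t := by exact_mod_cast hj
      have hti : (t : ℝ) + 1 ≤ g (j + 1) := by exact_mod_cast hi
      have htT : (T : ℝ) ≤ t := by exact_mod_cast ht.1
      have hcl := close ε (V1 y) (g j) (g (j + 1)) t (Ns y (g j) n) (Ns y (g (j + 1)) n) (Ns y t n) hε hε1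
        (Nat.cast_nonneg _) hV0 hjt (by
          have h1 : q * (q ^ j * T) ≤ q * g j := mul_le_mul_of_nonneg_left hlow (by linarith)
          rw [hq] at h1
          rw [hq] at hub
          linarith) (by
          have h1 : q * (q ^ j * T) ≤ q * t := mul_le_mul_of_nonneg_left (hlow.trans hjt) (by linarith)
          have h2 : 1 ≤ ε / 16 * t := by
            rw [div_le_iff₀ hε] at hT1'
            nlinarith
          rw [hq] at h1 hub
          nlinarith)
        (hgood j (by omega)) (hgood (j + 1) (by omega))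
        (by exact_mod_cast Ns_mono y hj n) (by exact_mod_cast Ns_mono y hi.le n)
      linarith
    · have ht2 : t = 2 * T := by omega
      have h1 := hgood J le_rfl
      rw [hgJ, ← ht2] at h1
      have h2 : 0 ≤ (t : ℝ) * V1 y := by positivity
      nlinarith
  calc (((Ioc Z (Z + Y)).filter (fun n => Bad ε y T n)).card : ℝ)
      ≤ (((range (J + 1)).biUnion (fun i => (Ioc Z (Z + Y)).filter (fun n =>
      δ * (g i * V1 y) < |(Ns y (g i) n : ℝ) - g i * V1 y|))).card : ℝ) := by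
        exact_mod_cast card_le_card hsub
    _ ≤ ((∑ i ∈ range (J + 1), ((Ioc Z (Z + Y)).filter (fun n =>
      δ * (g i * V1 y) < |(Ns y (g i) n : ℝ) - g i * V1 y|)).card : ℕ) : ℝ) := by
        exact_mod_cast card_biUnion_le
    _ ≤ ∑ _i ∈ range (J + 1), δ * Y := by
        push_cast
        exact Finset.sum_le_sum (fun i _ => hE i)
    _ = (J + 1) * δ * Y := by
        rw [Finset.sum_const, card_range, nsmul_eq_mul]
        push_cast
        ring
    _ ≤ ε * Y := mul_le_mul_of_nonneg_right hδJ (Nat.cast_nonneg _)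

end Pool.Agent.Y862.SQ
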