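import Pool.Agent.Y862.SQ.Lln2
import Pool.Agent.Y486.SQ.Law
import Pool.Agent.Y61.SQ.AVG
import Pool.Agent.Y779.SQ.ELS
import Pool.Agent.Y436.SQ.EXC
import Pool.Agent.Y756.SQ.Br2
import Pool.Agent.Y286.SQ.F1
import Pool.Agent.Y848.SQ.SW3
import Pool.Agent.Y117.SQ.FM
import Pool.Agent.Y606.SQ.Coll
import Pool.Agent.Y420.SQ.Tail
import Pool.Agent.Y681.SQ.Small
import Pool.Agent.Y810.SQ.Law2
import Pool.Agent.Helper256.KM.Mertens

set_option autoImplicit false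

/-!
# Project SQ: assembly of part 1
-/

namespace Pool.Agent.Y862.SQ

open Finset

theorem t_MERT : S_MERT := Pool.Agent.Helper256.KM.mertens_inv

theorem t_AVG : S_AVG :=
  Pool.Agent.Y61.SQ.t_AVG t_MERT
    (Pool.Agent.Y117.SQ.t_FM t_MERT (Pool.Agent.Y286.SQ.t_F1 (Pool.Agent.Y756.SQ.t_BR2 t_MERT))
      (Pool.Agent.Y436.SQ.t_EXC Pool.Agent.Y779.SQ.t_ELS) Pool.Agent.Y848.SQ.t_SW3)
    Pool.Agent.Y606.SQ.t_COLL Pool.Agent.Y420.SQ.t_TAIL Pool.Agent.Y681.SQ.t_SMALL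

theorem t_MOM : S_MOM := by
  intro k η hη
  obtain ⟨K0, y0, T0, h⟩ := Pool.Agent.Y486.SQ.moment' t_AVG k (min η 1) (by positivity) (min_le_right _ _)
  refine ⟨K0, y0, T0, ?_⟩
  intro Z Y y T hy hyY hT
  have h1 := h Z Y y T hy hyY hT
  have e : ∑ n ∈ Ioc Z (Z + Y), ((Ns y T n).choose (k + 1) : ℝ) =
      ∑ n ∈ Icc 1 Y, ((Ns y T (n + Z)).choose (k + 1) : ℝ) := by
    symm
    apply Finset.sum_bij (fun n _ => n + Z)
    · intro a ha
      rw [mem_Icc] at ha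
      rw [mem_Ioc]
      omega
    · intro a _ b _ hab
      omega
    · intro b hb
      rw [mem_Ioc] at hb
      exact ⟨b - Z, by rw [mem_Icc]; omega, by omega⟩
    · intro a _
      rfl
  rw [e]
  refine h1.trans ?_
  have h2 : min η 1 ≤ η := min_le_left _ _
  have h3 : 0 ≤ (Y : ℝ) * ((T * V1 y) ^ (k + 1) / (k + 1).factorial) := by
    have := V1_nonneg y
    positivity
  have h4 := mul_le_mul_of_nonneg_right h2 h3
  linarith

end Pool.Agent.Y862.SQ
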