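import Pool.Agent.Y862.SQ.Main1
import Pool.Agent.Y406.JL.Law
import Pool.Agent.Y279.SQ.ELSZ
import Pool.Agent.Y67.SQ.EXCZ
import Pool.Agent.Y286.SQ.F1Z
import Pool.Agent.Y722.SQ2.SW3Z
import Pool.Agent.Y117.SQ.FMZ
import Pool.Agent.Y954.SQ.Collr
import Pool.Agent.Y420.SQ.TailZ
import Pool.Agent.Y448.SQ.SmallZ
import Pool.Agent.Y872.SQ.AvgZ
import Pool.Agent.Y65.SQ2.LawJ
import Pool.Agent.Y87.SQ.LawK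

set_option autoImplicit false

/-!
# Project SQ: assembly of part 2
-/

namespace Pool.Agent.Y862.SQ

theorem t_AVGZ : S_AVGZ :=
  Pool.Agent.Y872.SQ.t_AVGZ t_MERT
    (Pool.Agent.Y117.SQ.t_FMZ t_MERT (Pool.Agent.Y286.SQ.t_F1Z (Pool.Agent.Y756.SQ.t_BR2 t_MERT))
      (Pool.Agent.Y67.SQ.t_EXCZ Pool.Agent.Y279.SQ.t_ELSZ) Pool.Agent.Y722.SQ2.t_SW3Z)
    Pool.Agent.Y954.SQ.t_COLLR Pool.Agent.Y420.SQ.t_TAILZ Pool.Agent.Y448.SQ.t_SMALLZ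

theorem t_LAWK : S_LAWK :=
  Pool.Agent.Y87.SQ.t_LAWK (Pool.Agent.Y65.SQ2.t_LAWJ Pool.Agent.Y406.JL.t_JLAW t_AVGZ)

end Pool.Agent.Y862.SQ
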