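import Pool.Agent.Y862.SQ.Stm3
import Pool.Agent.Y862.SQ.Main2
import Pool.Agent.Y417.SQ.Col0
import Pool.Agent.Y406.SQ.SmallQ
import Pool.Agent.Y547.SQ.AvgQ
import Pool.Agent.Y349.SQ3.LMom
import Pool.Agent.Y794.SQ.PJ
import Pool.Agent.Y809.SQ3.PK

set_option autoImplicit false

/-!
# Project SQ: assembly of part 3
-/

namespace Pool.Agent.Y862.SQ

theorem t_AVGQ : S_AVGQ :=
  Pool.Agent.Y547.SQ.t_AVGQ t_MERT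
    (Pool.Agent.Y117.SQ.t_FMZ t_MERT (Pool.Agent.Y286.SQ.t_F1Z (Pool.Agent.Y756.SQ.t_BR2 t_MERT))
      (Pool.Agent.Y67.SQ.t_EXCZ Pool.Agent.Y279.SQ.t_ELSZ) Pool.Agent.Y722.SQ2.t_SW3Z)
    Pool.Agent.Y954.SQ.t_COLLR Pool.Agent.Y417.SQ.Col0.t_COL0 Pool.Agent.Y420.SQ.t_TAILZ
    Pool.Agent.Y406.SQ.t_SMALLQ

theorem t_LMOM : S_LMOM := Pool.Agent.Y349.SQ3.t_LMOM t_AVGQ

theorem t_PJ : S_PJ := Pool.Agent.Y794.SQ.t_PJ Pool.Agent.Y406.JL.t_JLAW t_LMOM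

theorem t_PK : S_PK := Pool.Agent.Y809.SQ3.t_PK t_PJ

end Pool.Agent.Y862.SQ
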